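import Pool.Agent.Run7.h332.WP.Basis3

/-!
# MP_ee77ae_nt: `4 k` positive `k`-th powers suffice if one of them (or half a percent) is perturbed

Let `k ≥ 2`, `0 < δ ≤ 1 - 1/k`, and let `ξ n` be independent random nonnegative integers such that
each `j ≤ n ^ (δ k)` is the value of `ξ n` with probability at least `c / n ^ (δ k)`, for instance
uniform on the integers `≤ n ^ (δ k)`; then a *perturbed `k`-th power* `n ^ k + ξ n` differs from
`x = n ^ k` by at most `x ^ δ`. Almost surely, for all `t` and `q` with `(1 - 1/k) ^ t < δ` and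
`k (1 - 1/k) ^ t < q`, every large integer is a sum of exactly `t` positive `k`-th powers and `q`
perturbed ones. In particular, for `δ ≥ 1/50` every large integer is a sum of `4 k` such terms, of
which `⌊199 k / 50⌋` are exact `k`-th powers, and all but one are exact if `k ≤ 55`.

Proof: the sums of `t` exact `k`-th powers have gaps `≪ N ^ ((1 - 1/k) ^ t)` up to `N`, and each
perturbed term divides the size of the gaps by `N ^ (1/k - ε)`, almost surely for all large numbers.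
-/

open MeasureTheory ProbabilityTheory Filter

namespace Pool.Agent.Results.MP_ee77ae_nt.AllButOneExact

/-- Every large integer is a sum of exactly `t` `k`-th powers of positive integers and of exactly `q`
numbers `n ^ k + x n` with `n ≥ 1`. -/
def Good (k t q : ℕ) (x : ℕ → ℕ) : Prop :=
  ∃ N₀ : ℕ, ∀ m : ℕ, N₀ ≤ m → ∃ (a : Fin t → ℕ) (b : Fin q → ℕ), (∀ i, 1 ≤ a i) ∧ (∀ i, 1 ≤ b i) ∧
    m = ∑ i, (a i) ^ k + ∑ i, ((b i) ^ k + x (b i))

/-- `e ^ 3.93 > 50`. -/
theorem exp_large : (50 : ℝ) < Real.exp (393 / 100) := by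
  have h := Real.sum_le_exp_of_nonneg (show (0 : ℝ) ≤ 393 / 100 by norm_num) 14
  refine lt_of_lt_of_le ?_ h
  norm_num [Finset.sum_range_succ, Nat.factorial]

/-- `(1 - 1/k) ^ ⌊199 k / 50⌋ < 1/50`. -/
theorem pow_small (k : ℕ) (hk : 2 ≤ k) : (1 - 1 / (k : ℝ)) ^ (199 * k / 50) < 1 / 50 := by
  rcases Nat.lt_or_ge k 20 with h | h
  · interval_cases k <;> norm_num
  · have hkR : (20 : ℝ) ≤ k := by exact_mod_cast h
    have hkpos : (0 : ℝ) < k := by linarith
    have hr0 : (0 : ℝ) ≤ 1 - 1 / (k : ℝ) := by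
      rw [sub_nonneg, div_le_one hkpos]
      linarith
    set t : ℕ := 199 * k / 50 with ht
    have ht1 : (199 * k : ℝ) ≤ 50 * t + 49 := by
      have : 199 * k ≤ 50 * t + 49 := by omega
      exact_mod_cast this
    have h1 : 1 - 1 / (k : ℝ) ≤ Real.exp (-(1 / (k : ℝ))) := by
      have := Real.add_one_le_exp (-(1 / (k : ℝ)))
      linarith
    have h2 : (1 - 1 / (k : ℝ)) ^ t ≤ Real.exp (-(1 / (k : ℝ))) ^ t := pow_le_pow_left₀ hr0 h1 t
    have h3 : Real.exp (-(1 / (k : ℝ))) ^ t = Real.exp (-(t / k)) := by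
      rw [← Real.exp_nat_mul]
      congr 1
      ring
    have h4 : (393 / 100 : ℝ) ≤ t / k := by
      rw [le_div_iff₀ hkpos]
      linarith
    have h5 : Real.exp (-(t / k)) ≤ Real.exp (-(393 / 100)) := Real.exp_le_exp.2 (by linarith)
    have h6 : Real.exp (-(393 / 100)) < 1 / 50 := by
      rw [Real.exp_neg, inv_eq_one_div]
      exact one_div_lt_one_div_of_lt (by norm_num) exp_large
    rw [h3] at h2
    linarith

/-- `k (1 - 1/k) ^ (4 k - 1) < 1` for `k ≤ 55`. -/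
theorem pow_one (k : ℕ) (hk : 2 ≤ k) (hk' : k ≤ 55) :
    k * (1 - 1 / (k : ℝ)) ^ (4 * k - 1) < 1 ∧ (1 - 1 / (k : ℝ)) ^ (4 * k - 1) < 1 / 50 := by
  interval_cases k <;> norm_num

/-- **Main result.** Let `k ≥ 2`, `0 < δ ≤ 1 - 1/k`, `c > 0`, and let `ξ n` be independent random
nonnegative integers such that each integer `j ≤ n ^ (δ k)` is the value of `ξ n` (`n ≥ 1`) with
probability at least `c / n ^ (δ k)`. Almost surely:

(1) for all `t`, `q` with `(1 - 1/k) ^ t < δ` and `k (1 - 1/k) ^ t < q` every large integer is a sum of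
exactly `t` `k`-th powers of positive integers and exactly `q` perturbed ones `n ^ k + ξ n`, `n ≥ 1`;

(2) if `δ ≥ 1/50` this holds for `t = ⌊199 k / 50⌋` and `q = 4 k - t`;

(3) if `δ ≥ 1/50` and `k ≤ 55` it holds for `t = 4 k - 1` and `q = 1`. -/
theorem result {Ω : Type*} [MeasurableSpace Ω] (P : Measure Ω) [IsProbabilityMeasure P]
    (k : ℕ) (hk : 2 ≤ k) (δ : ℝ) (hδ0 : 0 < δ) (hδ1 : δ ≤ 1 - 1 / (k : ℝ)) (c : ℝ) (hc : 0 < c)
    (ξ : ℕ → Ω → ℕ) (hm : ∀ n, Measurable (ξ n)) (hind : iIndepFun ξ P)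
    (hdens : ∀ n j : ℕ, 1 ≤ n → (j : ℝ) ≤ (n : ℝ) ^ (δ * k) →
      c / (n : ℝ) ^ (δ * k) ≤ P.real {ω | ξ n ω = j}) :
    ∀ᵐ ω ∂P,
      (∀ t q : ℕ, (1 - 1 / (k : ℝ)) ^ t < δ → k * (1 - 1 / (k : ℝ)) ^ t < q →
        Good k t q (fun n => ξ n ω)) ∧
      (1 / 50 ≤ δ → Good k (199 * k / 50) (4 * k - 199 * k / 50) (fun n => ξ n ω)) ∧
      (1 / 50 ≤ δ → k ≤ 55 → Good k (4 * k - 1) 1 (fun n => ξ n ω)) := by
  have hkR : (2 : ℝ) ≤ k := by exact_mod_cast hk
  have hkpos : (0 : ℝ) < k := by linarith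
  filter_upwards [Run7.h332.WP.positive k hk δ hδ0 hδ1 c hc ξ hm hind hdens] with ω hω
  refine ⟨hω, fun hδ => ?_, fun hδ hk' => ?_⟩
  · have h1 := pow_small k hk
    refine hω _ _ (lt_of_lt_of_le h1 hδ) ?_
    have h2 : 50 * (4 * k - 199 * k / 50) ≥ k := by omega
    have h3 : (k : ℝ) ≤ 50 * ((4 * k - 199 * k / 50 : ℕ) : ℝ) := by exact_mod_cast h2
    have h4 : k * (1 - 1 / (k : ℝ)) ^ (199 * k / 50) < k * (1 / 50) :=
      mul_lt_mul_of_pos_left h1 hkpos
    linarith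
  · obtain ⟨h1, h2⟩ := pow_one k hk hk'
    exact hω _ _ (lt_of_lt_of_le h2 hδ) (by exact_mod_cast h1)

end Pool.Agent.Results.MP_ee77ae_nt.AllButOneExact
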