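import Mathlib
import Pool.Agent.Run7.h757.MW.Use2

/-!
# `4 k` summands: about 92 percent of them `k`-th powers of primes, the others `⌊lam_i p_i ^ k⌋`

For every `k ≥ 2` and almost all positive `lam_1, ..., lam_u`, every large integer is a sum of `2 r` `k`-th powers of
primes and `u` terms `⌊lam_i p_i ^ k⌋`, `p_i` prime, where `r = min (2 k - 2) ⌊46 k / 25⌋` and `2 r + u = 4 k`. Thus all but
four of the `4 k` terms are `k`-th powers of primes if `k ≤ 12`, and at least `3.68 k - 2` of them if `k ≥ 13`.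
The primes can be replaced by arbitrary regularly distributed sets.

Proof. Circle method modulo `Q ≍ N ^ k` with diminishing ranges for the `k`-th powers (twice, with variables in the
given set) and a mean value estimate over `lam` for the exponential sums `∑ e(a ⌊lam n ^ k⌋)` over an arbitrary set:
by the Fourier expansion of the integer part and the spacing of the numbers `n ^ k`, the mean square over
`lam ∈ [0, A]` is at most `N (log N) ^ C` for `|a| ≥ N ^ (1 - k)` and `N ^ (2 - k) (log N) ^ C / |a|` below. The criterion is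
`2 k (1 - 1 / k) ^ r < u`, `u ≥ 4`. The frequencies near `0` are treated by a comparison with short averages (Fejer kernel)
and an elementary lower bound which uses the prime number theorem with an error term in short intervals `(x, x + x / (log x) ^ B]`.
-/

open Finset MeasureTheory Filter

open Pool.Agent.Run7.h757.MW (Reg)

namespace Pool.Agent.Results.MP_ee77ae_nt.PrimesFourK

/-- Every large integer is a sum of `t` positive `k`-th powers `x_i ^ k`, `x_i ∈ V`, and of `u` terms `⌊lam_i n_i ^ k⌋`,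
`n_i ∈ W i`. -/
def Good (k t u : ℕ) (V : Set ℕ) (W : Fin u → Set ℕ) (lam : Fin u → ℝ) : Prop :=
  ∀ᶠ M : ℕ in atTop, ∃ (x : Fin t → ℕ) (n : Fin u → ℕ), (∀ i, 1 ≤ x i ∧ x i ∈ V) ∧
    (∀ i, 1 ≤ n i ∧ n i ∈ W i) ∧ ∑ i, x i ^ k + ∑ i, ⌊lam i * (n i : ℝ) ^ k⌋₊ = M

theorem exp184 : Real.exp (-(46 / 25 : ℝ)) ≤ 0.1589 := by
  have h1 : (6.2933 : ℝ) ≤ Real.exp (46 / 25) := by
    have h2 : (6.2933 : ℝ) ^ 25 ≤ Real.exp (46 / 25) ^ 25 := by
      calc (6.2933 : ℝ) ^ 25 ≤ (2.7182818283 : ℝ) ^ 46 := by norm_num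
        _ ≤ Real.exp 1 ^ 46 := by
            gcongr
            exact Real.exp_one_gt_d9.le
        _ = Real.exp (46 / 25) ^ 25 := by
            rw [← Real.exp_nat_mul, ← Real.exp_nat_mul]
            norm_num
    exact le_of_pow_le_pow_left₀ (by norm_num) (Real.exp_pos _).le h2
  rw [Real.exp_neg, inv_le_comm₀ (Real.exp_pos _) (by norm_num)]
  refine le_trans ?_ h1
  norm_num

theorem exp_lt (x : ℝ) (hx0 : 0 ≤ x) (hx1 : x ≤ 46 / 25) : Real.exp (-x) < 2 - x := by
  set th : ℝ := x / (46 / 25) with hth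
  have h0 : 0 ≤ th := by positivity
  have h1 : th ≤ 1 := by
    rw [hth, div_le_one (by norm_num)]
    exact hx1
  have hx : x = th * (46 / 25) := by
    rw [hth]
    field_simp
  have hc := convexOn_exp.2 (Set.mem_univ (-(46 / 25) : ℝ)) (Set.mem_univ (0 : ℝ)) h0
    (by linarith : (0 : ℝ) ≤ 1 - th) (by ring)
  simp only [smul_eq_mul, mul_zero, add_zero, Real.exp_zero, mul_one] at hc
  have h2 : th * -(46 / 25) = -x := by
    rw [hx]
    ring
  rw [h2] at hc
  have h3 := exp184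
  have h4 : th * Real.exp (-(46 / 25)) ≤ th * 0.1589 := mul_le_mul_of_nonneg_left h3 h0
  have h5 : Real.exp (-x) ≤ th * 0.1589 + (1 - th) := by linarith
  refine lt_of_le_of_lt h5 ?_
  rw [hx]
  norm_num
  linarith

theorem crit (k r u : ℕ) (hk : 2 ≤ k) (hr : 25 * r ≤ 46 * k) (hu : 2 * r + u = 4 * k) :
    2 * (k : ℝ) * (1 - 1 / (k : ℝ)) ^ r < u := by
  have hk2 : (2 : ℝ) ≤ k := by exact_mod_cast hk
  have hk0 : (0 : ℝ) < k := by linarith
  have hk1 : (0 : ℝ) ≤ 1 - 1 / (k : ℝ) := by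
    have h2 : 1 / (k : ℝ) ≤ 1 := by
      rw [div_le_one hk0]
      linarith
    linarith
  have h2 : (1 - 1 / (k : ℝ)) ^ r ≤ Real.exp (-((r : ℝ) / k)) := by
    calc (1 - 1 / (k : ℝ)) ^ r ≤ Real.exp (-(1 / (k : ℝ))) ^ r := by
          gcongr
          exact Real.one_sub_le_exp_neg _
      _ = Real.exp (-((r : ℝ) / k)) := by
          rw [← Real.exp_nat_mul]
          congr 1
          field_simp
  have hr' : 25 * (r : ℝ) ≤ 46 * k := by exact_mod_cast hr
  have h3 := exp_lt ((r : ℝ) / k) (by positivity) (by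
    rw [div_le_div_iff₀ hk0 (by norm_num)]
    linarith)
  have hu' : 2 * (r : ℝ) + u = 4 * k := by exact_mod_cast hu
  calc 2 * (k : ℝ) * (1 - 1 / (k : ℝ)) ^ r ≤ 2 * k * Real.exp (-((r : ℝ) / k)) := by gcongr
    _ < 2 * k * (2 - r / k) := by gcongr
    _ = 4 * k - 2 * r := by
        field_simp
        ring
    _ = u := by linarith

/-- **Main result.** -/
theorem result :
    -- arbitrary regularly distributed sets
    (∀ (k r u : ℕ) (V : Set ℕ) (W : Fin u → Set ℕ) (c t : ℝ), 2 ≤ k → 4 ≤ u → 2 * r + u = 4 * k →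
      25 * r ≤ 46 * k → 0 < c → 0 ≤ t → Reg c t V → (∀ i, Reg c t (W i)) →
      ∀ᵐ lam : Fin u → ℝ, (∀ i, 0 < lam i) → Good k (2 * r) u V W lam) ∧
    -- the primes
    Reg (1 / 2) 1 {p : ℕ | p.Prime} ∧
    (∀ k : ℕ, 2 ≤ k → 4 ≤ 4 * k - 2 * min (2 * k - 2) (46 * k / 25) ∧
      2 * min (2 * k - 2) (46 * k / 25) + (4 * k - 2 * min (2 * k - 2) (46 * k / 25)) = 4 * k ∧
      ∀ᵐ lam : Fin (4 * k - 2 * min (2 * k - 2) (46 * k / 25)) → ℝ, (∀ i, 0 < lam i) →
        Good k (2 * min (2 * k - 2) (46 * k / 25)) (4 * k - 2 * min (2 * k - 2) (46 * k / 25))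
          {p : ℕ | p.Prime} (fun _ => {p : ℕ | p.Prime}) lam) := by
  have h1 : ∀ (k r u : ℕ) (V : Set ℕ) (W : Fin u → Set ℕ) (c t : ℝ), 2 ≤ k → 4 ≤ u →
      2 * r + u = 4 * k → 25 * r ≤ 46 * k → 0 < c → 0 ≤ t → Reg c t V → (∀ i, Reg c t (W i)) →
      ∀ᵐ lam : Fin u → ℝ, (∀ i, 0 < lam i) → Good k (2 * r) u V W lam := by
    intro k r u V W c t hk hu hru hr hc ht hV hW
    exact Pool.Agent.Run7.h757.MW.genuineV k r u hk hu (crit k r u hk hr hru) V W c t hc ht hV hW
  refine ⟨h1, Pool.Agent.Run7.h416.MW.regp, fun k hk => ?_⟩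
  have h2 : 4 ≤ 4 * k - 2 * min (2 * k - 2) (46 * k / 25) := by omega
  have h3 : 2 * min (2 * k - 2) (46 * k / 25) +
      (4 * k - 2 * min (2 * k - 2) (46 * k / 25)) = 4 * k := by omega
  refine ⟨h2, h3, ?_⟩
  exact h1 k (min (2 * k - 2) (46 * k / 25)) _ _ _ (1 / 2) 1 hk h2 h3 (by omega) (by norm_num)
    (by norm_num) Pool.Agent.Run7.h416.MW.regp fun _ => Pool.Agent.Run7.h416.MW.regp

end Pool.Agent.Results.MP_ee77ae_nt.PrimesFourK
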