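import Pool.Agent.Run7.h927.WG.H

/-!
# MP_ee77ae_nt: `4k` variables, all but one of them in thin sets, for almost all coefficients

Let `k ≥ 2` and let `A_i`, `2 ≤ i ≤ s`, be ANY sets of natural numbers with at least `P^β` elements between `P` and `2P`
for the large powers `P` of `2`, where `1/3 < β ≤ 1` and `(s-1) β > 2k-1`. Then for almost all positive coefficients
`α` every large integer `n` is the integer part of `α₁ x₁^k + … + α_s x_s^k` with positive integers `x_i`, `x_i ∈ A_i`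
for `i ≥ 2`, and there are at least `c n^(((s-1)β+1)/k - 1)` such `x`. For `β = 1/2` (for instance: the squares) one can
take `s = 4k`, the number of variables in the question; for `β = 1` one can take `s = 2k+1`.
-/

namespace Pool.Agent.Results.MP_ee77ae_nt.ThinVariables

open MeasureTheory Filter

open Classical in
/-- the set `A` has at least `P^β` elements in `(P, 2P]` for all large powers `P = 2^j` of `2` -/
def Rich (A : Set ℕ) (β : ℝ) : Prop :=
  ∀ᶠ j : ℕ in atTop, ((2 ^ j : ℕ) : ℝ) ^ β ≤ (((Finset.Ioc (2 ^ j) (2 * 2 ^ j)).filter (fun x => x ∈ A)).card : ℝ)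

/-- every large integer is the integer part of the form, with `x_i ∈ A_i` for all `i` but the first, in at least
`c n ^ σ` ways -/
def Represents {s : ℕ} (k : ℕ) (α : Fin s → ℝ) (A : Fin s → Set ℕ) (σ : ℝ) : Prop :=
  ∃ c : ℝ, 0 < c ∧ ∀ᶠ n : ℕ in atTop, ∃ F : Finset (Fin s → ℕ), c * (n : ℝ) ^ σ ≤ (F.card : ℝ) ∧
    ∀ x ∈ F, (∀ i, 0 < x i) ∧ (∀ i : Fin s, (i : ℕ) ≠ 0 → x i ∈ A i) ∧ ⌊∑ i, α i * (x i : ℝ) ^ k⌋₊ = n

theorem general (k s : ℕ) (hk : 2 ≤ k) (β : ℝ) (hβ : 1 / 3 < β) (hβ1 : β ≤ 1) (hs : 2 * (k : ℝ) - 1 < ((s : ℝ) - 1) * β)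
    (A : Fin s → Set ℕ) (hA : ∀ i : Fin s, (i : ℕ) ≠ 0 → Rich (A i) β) :
    ∀ᵐ α : Fin s → ℝ, (∀ i, 0 < α i) → Represents k α A ((((s : ℝ) - 1) * β + 1) / k - 1) := by
  classical
  have hk0 : (0 : ℝ) < k := by exact_mod_cast (by omega : 0 < k)
  have hk2 : (2 : ℝ) ≤ k := by exact_mod_cast hk
  have hs4 : 4 ≤ s := by
    by_contra h
    have h1 : (s : ℝ) ≤ 3 := by exact_mod_cast (by omega : s ≤ 3)
    nlinarith
  obtain ⟨m, rfl⟩ : ∃ m, s = 4 + m := ⟨s - 4, by omega⟩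
  obtain ⟨δ, hδ⟩ : ∃ δ : ℝ, δ = min (((((4 + m : ℕ) : ℝ) - 1) * β - (2 * k - 1)) / 8) ((3 * β - 1) / 8) := ⟨_, rfl⟩
  have hδ0 : 0 < δ := by
    rw [hδ]
    apply lt_min <;> linarith
  have hδ1 : 8 * δ ≤ (((4 + m : ℕ) : ℝ) - 1) * β - (2 * k - 1) := by
    have := min_le_left (((((4 + m : ℕ) : ℝ) - 1) * β - (2 * k - 1)) / 8) ((3 * β - 1) / 8)
    rw [← hδ] at this
    linarith
  have hδ2 : 8 * δ ≤ 3 * β - 1 := by
    have := min_le_right (((((4 + m : ℕ) : ℝ) - 1) * β - (2 * k - 1)) / 8) ((3 * β - 1) / 8)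
    rw [← hδ] at this
    linarith
  have hp1 : ∀ j : ℕ, (1 : ℝ) ≤ ((2 ^ j : ℕ) : ℝ) := fun j => by exact_mod_cast Nat.one_le_two_pow
  have hne : ∀ i : Fin (4 + m), i ≠ Fin.castAdd m 0 → (i : ℕ) ≠ 0 := by
    intro i hi h
    apply hi
    rw [Fin.ext_iff]
    simpa using h
  have hrich : ∀ᶠ j : ℕ in atTop, ∀ i : Fin (4 + m), (i : ℕ) ≠ 0 →
      ((2 ^ j : ℕ) : ℝ) ^ β ≤ (((Finset.Ioc (2 ^ j) (2 * 2 ^ j)).filter (fun x => x ∈ A i)).card : ℝ) := by
    rw [eventually_all]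
    intro i
    by_cases hi : (i : ℕ) = 0
    · exact Eventually.of_forall fun j h => absurd hi h
    · filter_upwards [hA i hi] with j hj _
      exact hj
  have hW : ∀ᶠ j : ℕ in atTop, ((2 ^ j : ℕ) : ℝ) ^ ((((4 + m : ℕ) : ℝ) - 1) * β) ≤
      Pool.Agent.Run7.h927.WG.W m A (2 ^ j) := by
    filter_upwards [hrich] with j hj
    have hp0 : (0 : ℝ) < ((2 ^ j : ℕ) : ℝ) := by linarith [hp1 j]
    unfold Pool.Agent.Run7.h927.WG.W
    calc ((2 ^ j : ℕ) : ℝ) ^ ((((4 + m : ℕ) : ℝ) - 1) * β) = (((2 ^ j : ℕ) : ℝ) ^ β) ^ (3 + m) := by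
          rw [← Real.rpow_natCast (((2 ^ j : ℕ) : ℝ) ^ β), ← Real.rpow_mul hp0.le]
          congr 1
          push_cast
          ring
      _ = ∏ _i ∈ Finset.univ.erase (Fin.castAdd m (0 : Fin 4)), ((2 ^ j : ℕ) : ℝ) ^ β := by
          rw [Finset.prod_const, Pool.Agent.Run7.h927.WG.card_erase]
      _ ≤ _ := by
          refine Finset.prod_le_prod (fun i _ => by positivity) fun i hi => ?_
          rw [Finset.mem_erase] at hi
          convert hj i (hne i hi.1)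
  have hW3 : ∀ᶠ j : ℕ in atTop, ((2 ^ j : ℕ) : ℝ) ^ (3 * β) ≤ Pool.Agent.Run7.h927.WG.W3 m A (2 ^ j) := by
    filter_upwards [hrich] with j hj
    have hp0 : (0 : ℝ) < ((2 ^ j : ℕ) : ℝ) := by linarith [hp1 j]
    have hB : 0 ≤ ((2 ^ j : ℕ) : ℝ) ^ β := by positivity
    unfold Pool.Agent.Run7.h927.WG.W3
    have e : ((2 ^ j : ℕ) : ℝ) ^ (3 * β) = ((2 ^ j : ℕ) : ℝ) ^ β * ((2 ^ j : ℕ) : ℝ) ^ β * ((2 ^ j : ℕ) : ℝ) ^ β := by
      rw [← Real.rpow_add hp0, ← Real.rpow_add hp0]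
      congr 1
      ring
    rw [e]
    have g : ∀ i : Fin 4, i ≠ 0 → ((2 ^ j : ℕ) : ℝ) ^ β ≤
        (((Finset.Ioc (2 ^ j) (2 * 2 ^ j)).filter (fun x => x ∈ A (Fin.castAdd m i))).card : ℝ) := by
      intro i hi
      refine hj _ ?_
      intro h
      apply hi
      rw [Fin.ext_iff]
      simpa using h
    refine mul_le_mul (mul_le_mul ?_ ?_ hB (by positivity)) ?_ hB (by positivity)
    · convert g 1 (by decide)
    · convert g 2 (by decide)
    · convert g 3 (by decide)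
  have main := Pool.Agent.Run7.h927.WG.main_sets m k (by omega) A δ hδ0 ?_ ?_
  · filter_upwards [main] with α hα hpos
    obtain ⟨c, hc, K, hK, h⟩ := hα hpos
    obtain ⟨e, he⟩ : ∃ e : ℝ, e = (((4 + m : ℕ) : ℝ) - 1) * β - (k - 1) := ⟨_, rfl⟩
    have he0 : 0 < e := by
      rw [he]
      linarith
    have htend : Tendsto (fun j : ℕ => ((2 ^ j : ℕ) : ℝ)) atTop atTop := by
      have : (fun j : ℕ => ((2 ^ j : ℕ) : ℝ)) = fun j : ℕ => (2 : ℝ) ^ j := by
        funext j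
        push_cast
        rfl
      rw [this]
      exact tendsto_pow_atTop_atTop_of_one_lt one_lt_two
    have hsm : ∀ᶠ j : ℕ in atTop, ((2 ^ j : ℕ) : ℝ) ^ (-(δ / 2)) ≤ 1 / 4 :=
      ((tendsto_rpow_neg_atTop (by positivity : 0 < δ / 2)).comp htend).eventually (ge_mem_nhds (by norm_num))
    obtain ⟨j₀, hj₀⟩ := eventually_atTop.1 (hsm.and hW)
    refine ⟨c / 4 / K ^ (e / k), by positivity, ?_⟩
    have h1 : Tendsto (fun n : ℕ => (n : ℝ) + 1 / 2) atTop atTop :=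
      tendsto_atTop_add_const_right _ _ tendsto_natCast_atTop_atTop
    filter_upwards [h1.eventually (h j₀)] with n hn
    obtain ⟨j, hj, hν1, hν2, hF⟩ := hn
    obtain ⟨hjs, hjW⟩ := hj₀ j hj
    obtain ⟨F, hF1, hF2⟩ := hF (1 / 4) hjs (by norm_num)
    have hp0 : (0 : ℝ) < ((2 ^ j : ℕ) : ℝ) := by linarith [hp1 j]
    have hn0 : (0 : ℝ) ≤ n := Nat.cast_nonneg n
    refine ⟨F, le_trans ?_ hF1, fun x hx => ?_⟩
    · obtain ⟨p, hpe⟩ : ∃ p : ℝ, p = ((2 ^ j : ℕ) : ℝ) := ⟨_, rfl⟩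
      rw [← hpe] at hν1 hp0 hjW ⊢
      have h2 : p ^ e ≤ Pool.Agent.Run7.h927.WG.W m A (2 ^ j) / p ^ (k - 1) := by
        rw [le_div_iff₀ (by positivity)]
        refine le_trans (le_of_eq ?_) hjW
        rw [← Real.rpow_natCast, ← Real.rpow_add hp0]
        congr 1
        rw [he, Nat.cast_sub (by omega)]
        push_cast
        ring
      have h3 : (n : ℝ) ^ (e / k) ≤ K ^ (e / k) * p ^ e := by
        have h4 : (n : ℝ) ≤ K * p ^ k := by linarith
        calc (n : ℝ) ^ (e / k) ≤ (K * p ^ k) ^ (e / k) := Real.rpow_le_rpow hn0 h4 (by positivity)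
          _ = K ^ (e / k) * p ^ e := by
              rw [Real.mul_rpow (by linarith) (by positivity), ← Real.rpow_natCast p, ← Real.rpow_mul hp0.le]
              congr 2
              field_simp
      have h5 : ((((4 + m : ℕ) : ℝ) - 1) * β + 1) / k - 1 = e / k := by
        rw [he]
        field_simp
        ring
      rw [h5]
      calc c / 4 / K ^ (e / k) * (n : ℝ) ^ (e / k) ≤ c / 4 / K ^ (e / k) * (K ^ (e / k) * p ^ e) :=
            mul_le_mul_of_nonneg_left h3 (by positivity)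
        _ = c * (1 / 4) * p ^ e := by
            have : 0 < K ^ (e / k) := by positivity
            field_simp
        _ ≤ _ := mul_le_mul_of_nonneg_left h2 (by positivity)
    · obtain ⟨g1, g2, g3⟩ := hF2 x hx
      refine ⟨fun i => (g1 i).1, fun i hi => g2 i ?_, ?_⟩
      · intro h
        apply hi
        rw [h]
        simp
      · rw [abs_le] at g3
        rw [Nat.floor_eq_iff (by linarith [g3.1])]
        constructor
        · linarith [g3.1]
        · linarith [g3.2]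
  · filter_upwards [hW] with j hj
    have hp0 : (0 : ℝ) < ((2 ^ j : ℕ) : ℝ) := by linarith [hp1 j]
    refine le_trans ?_ hj
    rw [← pow_mul, ← Real.rpow_natCast, ← Real.rpow_add hp0]
    apply Real.rpow_le_rpow_of_exponent_le (hp1 j)
    push_cast [Nat.cast_sub (by omega : 1 ≤ k)]
    push_cast at hδ1
    linarith
  · filter_upwards [hW3] with j hj
    refine le_trans ?_ hj
    apply Real.rpow_le_rpow_of_exponent_le (hp1 j)
    linarith

theorem result :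
    (∀ (k s : ℕ), 2 ≤ k → ∀ β : ℝ, 1 / 3 < β → β ≤ 1 → 2 * (k : ℝ) - 1 < ((s : ℝ) - 1) * β →
      ∀ A : Fin s → Set ℕ, (∀ i : Fin s, (i : ℕ) ≠ 0 → Rich (A i) β) →
        ∀ᵐ α : Fin s → ℝ, (∀ i, 0 < α i) → Represents k α A ((((s : ℝ) - 1) * β + 1) / k - 1)) ∧
    (∀ k : ℕ, 2 ≤ k → ∀ A : Fin (4 * k) → Set ℕ, (∀ i : Fin (4 * k), (i : ℕ) ≠ 0 → Rich (A i) (1 / 2)) →
      ∀ᵐ α : Fin (4 * k) → ℝ, (∀ i, 0 < α i) → Represents k α A (1 + 1 / (2 * k))) := by
  refine ⟨fun k s hk β hβ hβ1 hs A hA => general k s hk β hβ hβ1 hs A hA, fun k hk A hA => ?_⟩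
  have hk0 : (0 : ℝ) < k := by exact_mod_cast (by omega : 0 < k)
  have h := general k (4 * k) hk (1 / 2) (by norm_num) (by norm_num) (by push_cast; linarith) A hA
  have e : ((((4 * k : ℕ) : ℝ) - 1) * (1 / 2) + 1) / k - 1 = 1 + 1 / (2 * (k : ℝ)) := by
    push_cast
    field_simp
    ring
  rw [e] at h
  exact h

end Pool.Agent.Results.MP_ee77ae_nt.ThinVariables
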